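import Mathlib

/-!
# Removing unit segments to destroy all squares of the `n × n` board

`f 1 = 1` and `f n = ⌊(n² + 3) / 2⌋` for `n ≥ 2`, with an explicit optimal set for every `n`.
-/

set_option autoImplicit false

open Finset

namespace Pool.Agent.Results.MP_5493ad_co.MinSegments

/-- A unit segment of the grid: `(false, x, y)` joins `(x, y)` and `(x + 1, y)`, and
`(true, x, y)` joins `(x, y)` and `(x, y + 1)`. -/
abbrev Seg : Type := Bool × ℕ × ℕ

/-- The set `E_n` of the unit segments of the `n × n` board with vertex set `{0, …, n}²`. -/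
def edges (n : ℕ) : Finset Seg :=
  ((range n ×ˢ range (n + 1)).image fun p => (false, p.1, p.2)) ∪
    ((range (n + 1) ×ˢ range n).image fun p => (true, p.1, p.2))

/-- The boundary of the square `[a, a + k] × [b, b + k]`, a union of `4 k` unit segments. -/
def squareBoundary (a b k : ℕ) : Set Seg :=
  {s | ∃ i < k, s = (false, a + i, b) ∨ s = (false, a + i, b + k) ∨ s = (true, a, b + i) ∨
    s = (true, a + k, b + i)}

/-- `R` destroys all squares of the `n × n` board. -/
def DestroysAll (n : ℕ) (R : Finset Seg) : Prop :=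
  ∀ k a b : ℕ, 1 ≤ k → a + k ≤ n → b + k ≤ n → ∃ s ∈ R, s ∈ squareBoundary a b k

/-- `f n` is the minimum of `|R|` over the sets `R ⊆ E_n` that destroy all squares. -/
noncomputable def f (n : ℕ) : ℕ :=
  sInf {m | ∃ R : Finset Seg, R ⊆ edges n ∧ DestroysAll n R ∧ R.card = m}

/-- The explicit optimal set. With `q` the even one of `n`, `n - 1`, it consists of the
horizontal segments `(x, y)` with `x + y` odd, `x < y`, `x + y < q`, or with `x + y` even, `y ≤ x`,
`q ≤ x + y + 2`, and of the vertical segments `(x, y)` with `x + y` odd, `q < x + y`, `x < y`, or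
with `x + y` even, `y + 2 ≤ x`, `x + y + 4 ≤ q`. -/
def optimal (n : ℕ) : Finset Seg :=
  (edges n).filter fun s =>
    (s.1 = false ∧ (((s.2.1 + s.2.2) % 2 = 1 ∧ s.2.1 + 1 ≤ s.2.2 ∧ s.2.1 + s.2.2 + 1 ≤ 2 * (n / 2)) ∨
      ((s.2.1 + s.2.2) % 2 = 0 ∧ s.2.2 ≤ s.2.1 ∧ 2 * (n / 2) ≤ s.2.1 + s.2.2 + 2))) ∨
    (s.1 = true ∧ (((s.2.1 + s.2.2) % 2 = 1 ∧ 2 * (n / 2) + 1 ≤ s.2.1 + s.2.2 ∧ s.2.1 + 1 ≤ s.2.2) ∨
      ((s.2.1 + s.2.2) % 2 = 0 ∧ s.2.2 + 2 ≤ s.2.1 ∧ s.2.1 + s.2.2 + 4 ≤ 2 * (n / 2))))

/-! ### Counting -/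

lemma mem_edges_h (n x y : ℕ) : (false, x, y) ∈ edges n ↔ x < n ∧ y ≤ n := by
  simp [edges]

lemma mem_edges_v (n x y : ℕ) : (true, x, y) ∈ edges n ↔ x ≤ n ∧ y < n := by
  simp [edges]

/-- indicators -/
def hf (R : Finset Seg) (x y : ℕ) : ℕ := if (false, x, y) ∈ R then 1 else 0
def vf (R : Finset Seg) (x y : ℕ) : ℕ := if (true, x, y) ∈ R then 1 else 0

/-- number of removed sides of the cell `(x, y)` -/
def cnt (R : Finset Seg) (x y : ℕ) : ℕ := hf R x y + hf R x (y + 1) + vf R x y + vf R (x + 1) y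

/-- boundary indicator sum -/
def bsum (R : Finset Seg) (n i : ℕ) : ℕ := hf R i 0 + hf R i n + vf R 0 i + vf R n i

lemma card_eq (n : ℕ) (R : Finset Seg) (hR : R ⊆ edges n) :
    R.card = ∑ x ∈ range n, ∑ y ∈ range (n + 1), hf R x y +
      ∑ y ∈ range n, ∑ x ∈ range (n + 1), vf R x y := by
  classical
  have h1 : R.card = ∑ s ∈ edges n, if s ∈ R then 1 else 0 := by
    rw [← Finset.sum_filter, Finset.filter_mem_eq_inter, Finset.inter_eq_right.2 hR]
    simp
  rw [h1, edges, Finset.sum_union]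
  · rw [Finset.sum_image, Finset.sum_image, Finset.sum_product, Finset.sum_product_right]
    · rfl
    · intro p _ q _ h
      simpa [Prod.ext_iff] using h
    · intro p _ q _ h
      simpa [Prod.ext_iff] using h
  · rw [Finset.disjoint_left]
    intro s h2 h3
    rw [Finset.mem_image] at h2 h3
    obtain ⟨p, _, hp⟩ := h2
    obtain ⟨q, _, hq⟩ := h3
    rw [← hp] at hq
    simp at hq

lemma row (n : ℕ) (g : ℕ → ℕ) :
    ∑ y ∈ range n, (g y + g (y + 1)) + (g 0 + g n) = 2 * ∑ y ∈ range (n + 1), g y := by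
  have h1 := Finset.sum_range_succ g n
  have h2 := Finset.sum_range_succ' g n
  rw [Finset.sum_add_distrib]
  omega

lemma double_count (n : ℕ) (R : Finset Seg) (hR : R ⊆ edges n) :
    ∑ x ∈ range n, ∑ y ∈ range n, cnt R x y + ∑ i ∈ range n, bsum R n i = 2 * R.card := by
  rw [card_eq n R hR]
  have h1 : ∑ x ∈ range n, (∑ y ∈ range n, (hf R x y + hf R x (y + 1)) + (hf R x 0 + hf R x n)) =
      2 * ∑ x ∈ range n, ∑ y ∈ range (n + 1), hf R x y := by
    rw [Finset.mul_sum]
    exact Finset.sum_congr rfl fun x _ => row n _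
  have h2 : ∑ y ∈ range n, (∑ x ∈ range n, (vf R x y + vf R (x + 1) y) + (vf R 0 y + vf R n y)) =
      2 * ∑ y ∈ range n, ∑ x ∈ range (n + 1), vf R x y := by
    rw [Finset.mul_sum]
    exact Finset.sum_congr rfl fun y _ => row n (fun x => vf R x y)
  rw [Finset.sum_add_distrib] at h1 h2
  have h3 : ∑ x ∈ range n, ∑ y ∈ range n, cnt R x y =
      ∑ x ∈ range n, ∑ y ∈ range n, (hf R x y + hf R x (y + 1)) +
        ∑ y ∈ range n, ∑ x ∈ range n, (vf R x y + vf R (x + 1) y) := by
    rw [Finset.sum_comm (s := range n) (t := range n)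
      (f := fun y x => vf R x y + vf R (x + 1) y), ← Finset.sum_add_distrib]
    refine Finset.sum_congr rfl fun x _ => ?_
    rw [← Finset.sum_add_distrib]
    refine Finset.sum_congr rfl fun y _ => ?_
    unfold cnt
    ring
  have h4 : ∑ i ∈ range n, bsum R n i =
      ∑ x ∈ range n, (hf R x 0 + hf R x n) + ∑ y ∈ range n, (vf R 0 y + vf R n y) := by
    rw [← Finset.sum_add_distrib]
    refine Finset.sum_congr rfl fun x _ => ?_
    unfold bsum
    ring
  rw [h3, h4]
  omega

lemma hf_le (R : Finset Seg) (x y : ℕ) : hf R x y ≤ 1 := by unfold hf; split <;> omega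
lemma vf_le (R : Finset Seg) (x y : ℕ) : vf R x y ≤ 1 := by unfold vf; split <;> omega
lemma hf_pos {R : Finset Seg} {x y : ℕ} : hf R x y = 1 ↔ (false, x, y) ∈ R := by
  unfold hf; split <;> simp_all
lemma vf_pos {R : Finset Seg} {x y : ℕ} : vf R x y = 1 ↔ (true, x, y) ∈ R := by
  unfold vf; split <;> simp_all

lemma cnt_pos {n : ℕ} {R : Finset Seg} (h : DestroysAll n R) {x y : ℕ} (hx : x < n) (hy : y < n) :
    1 ≤ cnt R x y := by
  obtain ⟨s, hs, i, hi, h1⟩ := h 1 x y le_rfl hx hy
  have : i = 0 := by omega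
  subst this
  unfold cnt
  rcases h1 with rfl | rfl | rfl | rfl
  · have := hf_pos.2 hs; simp only [Nat.add_zero] at this; omega
  · have := hf_pos.2 hs; simp only [Nat.add_zero] at this; omega
  · have := vf_pos.2 hs; simp only [Nat.add_zero] at this; omega
  · have := vf_pos.2 hs; simp only [Nat.add_zero] at this; omega

lemma bsum_pos {n : ℕ} {R : Finset Seg} (hn : 1 ≤ n) (h : DestroysAll n R) :
    ∃ i < n, 1 ≤ bsum R n i := by
  obtain ⟨s, hs, i, hi, h1⟩ := h n 0 0 hn (by omega) (by omega)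
  refine ⟨i, hi, ?_⟩
  unfold bsum
  rcases h1 with rfl | rfl | rfl | rfl
  · have := hf_pos.2 hs; simp only [Nat.zero_add] at this; omega
  · have := hf_pos.2 hs; simp only [Nat.zero_add] at this; omega
  · have := vf_pos.2 hs; simp only [Nat.zero_add] at this; omega
  · have := vf_pos.2 hs; simp only [Nat.zero_add] at this; omega

lemma sum_one (n : ℕ) : ∑ _x ∈ range n, ∑ _y ∈ range n, 1 = n ^ 2 := by
  simp [pow_two]

/-! ### The chain argument for odd `n` -/

/-- where the unique removed side of a cell is: right, up, left, down, or on the border of the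
board -/
inductive Dir | R | U | L | D | B
  deriving DecidableEq

/-- A tiling of the board by dominoes and one cell `(x0, y0)` at the border, without `2 × 2`
blocks of parallel dominoes. -/
structure Til (n : ℕ) (d : ℕ → ℕ → Dir) (x0 y0 : ℕ) : Prop where
  hx0 : x0 < n
  hy0 : y0 < n
  hbd : x0 = 0 ∨ x0 + 1 = n ∨ y0 = 0 ∨ y0 + 1 = n
  isB : ∀ x y, x < n → y < n → d x y = .B → x = x0 ∧ y = y0
  isR : ∀ x y, x < n → y < n → d x y = .R → x + 1 < n ∧ d (x + 1) y = .L
  isL : ∀ x y, x < n → y < n → d x y = .L → ∃ x', x = x' + 1 ∧ d x' y = .R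
  isU : ∀ x y, x < n → y < n → d x y = .U → y + 1 < n ∧ d x (y + 1) = .D
  isD : ∀ x y, x < n → y < n → d x y = .D → ∃ y', y = y' + 1 ∧ d x y' = .U
  noH : ∀ x y, x + 1 < n → y + 1 < n → d x y = .R → d x (y + 1) = .R → False
  noV : ∀ x y, x + 1 < n → y + 1 < n → d x y = .U → d (x + 1) y = .U → False

/-- mirror in `x` -/
def mx : Dir → Dir
  | .R => .L | .L => .R | .U => .U | .D => .D | .B => .B
/-- mirror in `y` -/
def my : Dir → Dir
  | .R => .R | .L => .L | .U => .D | .D => .U | .B => .B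
/-- transposition -/
def tr : Dir → Dir
  | .R => .U | .U => .R | .L => .D | .D => .L | .B => .B

lemma Til.mirx {n : ℕ} {d : ℕ → ℕ → Dir} {x0 y0 : ℕ} (h : Til n d x0 y0) :
    Til n (fun x y => mx (d (n - 1 - x) y)) (n - 1 - x0) y0 := by
  have hx0 := h.hx0
  have key : ∀ e, mx e = .R ↔ e = .L := by intro e; cases e <;> simp [mx]
  have keyL : ∀ e, mx e = .L ↔ e = .R := by intro e; cases e <;> simp [mx]
  have keyU : ∀ e, mx e = .U ↔ e = .U := by intro e; cases e <;> simp [mx]
  have keyD : ∀ e, mx e = .D ↔ e = .D := by intro e; cases e <;> simp [mx]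
  have keyB : ∀ e, mx e = .B ↔ e = .B := by intro e; cases e <;> simp [mx]
  refine ⟨by omega, h.hy0, by have := h.hbd; omega, ?_, ?_, ?_, ?_, ?_, ?_, ?_⟩
  · intro x y hx hy h1
    rw [keyB] at h1
    have := h.isB _ _ (by omega) hy h1
    omega
  · intro x y hx hy h1
    rw [key] at h1
    obtain ⟨x', h2, h3⟩ := h.isL _ _ (by omega) hy h1
    refine ⟨by omega, ?_⟩
    rw [keyL]
    rw [show n - 1 - (x + 1) = x' by omega]
    exact h3
  · intro x y hx hy h1
    rw [keyL] at h1
    obtain ⟨h2, h3⟩ := h.isR _ _ (by omega) hy h1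
    refine ⟨x - 1, by omega, ?_⟩
    rw [key]
    rw [show n - 1 - (x - 1) = n - 1 - x + 1 by omega]
    exact h3
  · intro x y hx hy h1
    rw [keyU] at h1
    obtain ⟨h2, h3⟩ := h.isU _ _ (by omega) hy h1
    exact ⟨h2, (keyD _).2 h3⟩
  · intro x y hx hy h1
    rw [keyD] at h1
    obtain ⟨y', h2, h3⟩ := h.isD _ _ (by omega) hy h1
    exact ⟨y', h2, (keyU _).2 h3⟩
  · intro x y hx hy h1 h2
    rw [key] at h1 h2
    obtain ⟨x', h3, h4⟩ := h.isL _ _ (by omega) (by omega) h1
    obtain ⟨x'', h5, h6⟩ := h.isL _ _ (by omega) (by omega) h2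
    have : x'' = x' := by omega
    subst this
    exact h.noH x'' y (by omega) hy h4 h6
  · intro x y hx hy h1 h2
    rw [keyU] at h1 h2
    rw [show n - 1 - x = n - 1 - (x + 1) + 1 by omega] at h1
    exact h.noV _ y (by omega) hy h2 h1

lemma Til.transp {n : ℕ} {d : ℕ → ℕ → Dir} {x0 y0 : ℕ} (h : Til n d x0 y0) :
    Til n (fun x y => tr (d y x)) y0 x0 := by
  have key : ∀ e, tr e = .R ↔ e = .U := by intro e; cases e <;> simp [tr]
  have keyL : ∀ e, tr e = .L ↔ e = .D := by intro e; cases e <;> simp [tr]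
  have keyU : ∀ e, tr e = .U ↔ e = .R := by intro e; cases e <;> simp [tr]
  have keyD : ∀ e, tr e = .D ↔ e = .L := by intro e; cases e <;> simp [tr]
  have keyB : ∀ e, tr e = .B ↔ e = .B := by intro e; cases e <;> simp [tr]
  refine ⟨h.hy0, h.hx0, by have := h.hbd; omega, ?_, ?_, ?_, ?_, ?_, ?_, ?_⟩
  · intro x y hx hy h1
    rw [keyB] at h1
    exact (h.isB _ _ hy hx h1).symm
  · intro x y hx hy h1
    rw [key] at h1
    obtain ⟨h2, h3⟩ := h.isU _ _ hy hx h1
    exact ⟨h2, (keyL _).2 h3⟩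
  · intro x y hx hy h1
    rw [keyL] at h1
    obtain ⟨y', h2, h3⟩ := h.isD _ _ hy hx h1
    exact ⟨y', h2, (key _).2 h3⟩
  · intro x y hx hy h1
    rw [keyU] at h1
    obtain ⟨h2, h3⟩ := h.isR _ _ hy hx h1
    exact ⟨h2, (keyD _).2 h3⟩
  · intro x y hx hy h1
    rw [keyD] at h1
    obtain ⟨x', h2, h3⟩ := h.isL _ _ hy hx h1
    exact ⟨x', h2, (keyU _).2 h3⟩
  · intro x y hx hy h1 h2
    rw [key] at h1 h2
    exact h.noV y x hy hx h1 h2
  · intro x y hx hy h1 h2
    rw [keyU] at h1 h2
    exact h.noH y x hy hx h1 h2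

/-- the staircase of forced dominoes -/
lemma Til.chain {n : ℕ} {d : ℕ → ℕ → Dir} {x0 y0 : ℕ} (h : Til n d x0 y0) (hx : 1 ≤ x0)
    (hy : 1 ≤ y0) (h0 : d 0 0 = .R) : False := by
  have hbd := h.hbd
  have hx0 := h.hx0
  have hy0 := h.hy0
  -- forced steps
  have stepU : ∀ i, i + 1 < n → d i i = .R → (∀ j, i = j + 1 → d j (j + 1) = .U) →
      d i (i + 1) = .U ∨ (i + 1 = y0 ∧ i = x0) := by
    intro i hi h1 h2
    cases h3 : d i (i + 1) with
    | U => left; rfl
    | B => right; have := h.isB _ _ (by omega) hi h3; omega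
    | R => exact (h.noH i i hi hi h1 h3).elim
    | L =>
      exfalso
      obtain ⟨j, h4, h5⟩ := h.isL _ _ (by omega) hi h3
      have h6 := h2 j h4
      rw [h4] at h5
      have h7 := (h.isU _ _ (by omega) (by omega) h6)
      rw [h5] at h7
      exact absurd h7.2 (by simp)
    | D =>
      exfalso
      obtain ⟨j, h4, h5⟩ := h.isD _ _ (by omega) hi h3
      have : j = i := by omega
      subst this
      rw [h1] at h5
      exact absurd h5 (by simp)
  have all : ∀ i, i + 1 < n → d i i = .R ∧ ∀ j, i = j + 1 → d j (j + 1) = .U := by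
    intro i
    induction i with
    | zero => intro _; exact ⟨h0, by intro j hj; omega⟩
    | succ i ih =>
      intro hi
      obtain ⟨h1, h2⟩ := ih (by omega)
      have h3 : d i (i + 1) = .U := by
        rcases stepU i (by omega) h1 h2 with h3 | h3
        · exact h3
        · omega
      refine ⟨?_, ?_⟩
      · have hU := h.isU _ _ (by omega) (by omega) h3
        have hR := h.isR _ _ (by omega) (by omega) h1
        cases h4 : d (i + 1) (i + 1) with
        | R => rfl
        | B => exfalso; have := h.isB _ _ (by omega) (by omega) h4; omega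
        | U => exact (h.noV i (i + 1) (by omega) (by omega) h3 h4).elim
        | L =>
          exfalso
          obtain ⟨j, h5, h6⟩ := h.isL _ _ (by omega) (by omega) h4
          have : j = i := by omega
          subst this
          rw [h3] at h6
          exact absurd h6 (by simp)
        | D =>
          exfalso
          obtain ⟨j, h5, h6⟩ := h.isD _ _ (by omega) (by omega) h4
          have : j = i := by omega
          subst this
          rw [hR.2] at h6
          exact absurd h6 (by simp)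
      · intro j hj
        have : j = i := by omega
        subst this
        exact h3
  obtain ⟨m, rfl⟩ : ∃ m, n = m + 2 := ⟨n - 2, by omega⟩
  obtain ⟨h1, h2⟩ := all m (by omega)
  have hR := h.isR _ _ (by omega) (by omega) h1
  rcases stepU m (by omega) h1 h2 with h3 | ⟨h3, h4⟩
  · have := (h.isU _ _ (by omega) (by omega) h3).1
    omega
  · -- the corner is uncovered
    cases h5 : d (m + 1) (m + 1) with
    | B => have := h.isB _ _ (by omega) (by omega) h5; omega
    | R => have := (h.isR _ _ (by omega) (by omega) h5).1; omega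
    | U => have := (h.isU _ _ (by omega) (by omega) h5).1; omega
    | L =>
      obtain ⟨j, h6, h7⟩ := h.isL _ _ (by omega) (by omega) h5
      have : j = m := by omega
      subst this
      have h8 := (h.isR _ _ (by omega) (by omega) h7)
      exact h.noH j j (by omega) (by omega) h1 h7
    | D =>
      obtain ⟨j, h6, h7⟩ := h.isD _ _ (by omega) (by omega) h5
      have : j = m := by omega
      subst this
      rw [hR.2] at h7
      exact absurd h7 (by simp)

lemma Til.false1 {n : ℕ} {d : ℕ → ℕ → Dir} {x0 y0 : ℕ} (h : Til n d x0 y0) (hx : 1 ≤ x0)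
    (hy : 1 ≤ y0) : False := by
  have hx0 := h.hx0
  have hy0 := h.hy0
  cases h1 : d 0 0 with
  | R => exact h.chain hx hy h1
  | U => exact h.transp.chain hy hx (by simp [h1, tr])
  | L => obtain ⟨j, h2, _⟩ := h.isL _ _ (by omega) (by omega) h1; omega
  | D => obtain ⟨j, h2, _⟩ := h.isD _ _ (by omega) (by omega) h1; omega
  | B => have := h.isB _ _ (by omega) (by omega) h1; omega

lemma Til.false2 {n : ℕ} {d : ℕ → ℕ → Dir} {x0 y0 : ℕ} (hn : 2 ≤ n) (h : Til n d x0 y0)
    (hy : 1 ≤ y0) : False := by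
  by_cases hx : 1 ≤ x0
  · exact h.false1 hx hy
  · exact h.mirx.false1 (by omega) hy

lemma Til.false {n : ℕ} {d : ℕ → ℕ → Dir} {x0 y0 : ℕ} (hn : 2 ≤ n) (h : Til n d x0 y0) : False := by
  by_cases hy : 1 ≤ y0
  · exact h.false2 hn hy
  · exact h.transp.mirx.transp.false2 hn (by omega)

/-- the side of the cell `(x, y)` that is removed -/
def dir (n : ℕ) (S : Finset Seg) (x y : ℕ) : Dir :=
  if (true, x + 1, y) ∈ S ∧ x + 1 < n then .R
  else if (false, x, y + 1) ∈ S ∧ y + 1 < n then .U
  else if (true, x, y) ∈ S ∧ 1 ≤ x then .L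
  else if (false, x, y) ∈ S ∧ 1 ≤ y then .D
  else .B

lemma cell {S : Finset Seg} {x y : ℕ} (h : cnt S x y = 1) :
    ((true, x + 1, y) ∈ S ∧ (false, x, y + 1) ∉ S ∧ (true, x, y) ∉ S ∧ (false, x, y) ∉ S) ∨
    ((true, x + 1, y) ∉ S ∧ (false, x, y + 1) ∈ S ∧ (true, x, y) ∉ S ∧ (false, x, y) ∉ S) ∨
    ((true, x + 1, y) ∉ S ∧ (false, x, y + 1) ∉ S ∧ (true, x, y) ∈ S ∧ (false, x, y) ∉ S) ∨
    ((true, x + 1, y) ∉ S ∧ (false, x, y + 1) ∉ S ∧ (true, x, y) ∉ S ∧ (false, x, y) ∈ S) := by
  unfold cnt hf vf at h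
  by_cases h1 : (true, x + 1, y) ∈ S <;> by_cases h2 : (false, x, y + 1) ∈ S <;>
    by_cases h3 : (true, x, y) ∈ S <;> by_cases h4 : (false, x, y) ∈ S <;>
    simp [h1, h2, h3, h4] at h ⊢

lemma dir_R {n : ℕ} {S : Finset Seg} {x y : ℕ} (h : cnt S x y = 1) :
    dir n S x y = .R ↔ (true, x + 1, y) ∈ S ∧ x + 1 < n := by
  unfold dir
  rcases cell h with ⟨h1, h2, h3, h4⟩ | ⟨h1, h2, h3, h4⟩ | ⟨h1, h2, h3, h4⟩ | ⟨h1, h2, h3, h4⟩ <;>
    simp only [h1, h2, h3, h4, true_and, false_and, if_false] <;> split_ifs <;> simp_all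

lemma dir_U {n : ℕ} {S : Finset Seg} {x y : ℕ} (h : cnt S x y = 1) :
    dir n S x y = .U ↔ (false, x, y + 1) ∈ S ∧ y + 1 < n := by
  unfold dir
  rcases cell h with ⟨h1, h2, h3, h4⟩ | ⟨h1, h2, h3, h4⟩ | ⟨h1, h2, h3, h4⟩ | ⟨h1, h2, h3, h4⟩ <;>
    simp only [h1, h2, h3, h4, true_and, false_and, if_false] <;> split_ifs <;> simp_all

lemma dir_L {n : ℕ} {S : Finset Seg} {x y : ℕ} (h : cnt S x y = 1) :
    dir n S x y = .L ↔ (true, x, y) ∈ S ∧ 1 ≤ x := by
  unfold dir
  rcases cell h with ⟨h1, h2, h3, h4⟩ | ⟨h1, h2, h3, h4⟩ | ⟨h1, h2, h3, h4⟩ | ⟨h1, h2, h3, h4⟩ <;>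
    simp only [h1, h2, h3, h4, true_and, false_and, if_false] <;> split_ifs <;> simp_all

lemma dir_D {n : ℕ} {S : Finset Seg} {x y : ℕ} (h : cnt S x y = 1) :
    dir n S x y = .D ↔ (false, x, y) ∈ S ∧ 1 ≤ y := by
  unfold dir
  rcases cell h with ⟨h1, h2, h3, h4⟩ | ⟨h1, h2, h3, h4⟩ | ⟨h1, h2, h3, h4⟩ | ⟨h1, h2, h3, h4⟩ <;>
    simp only [h1, h2, h3, h4, true_and, false_and, if_false] <;> split_ifs <;> simp_all

/-- A set whose cells all have exactly one removed side, and with at most one removed border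
segment, gives a tiling. -/
lemma til_of {n : ℕ} {S : Finset Seg} (hS : DestroysAll n S)
    (hc : ∀ x y, x < n → y < n → cnt S x y = 1) {x0 y0 : ℕ} (hx0 : x0 < n) (hy0 : y0 < n)
    (hbd : x0 = 0 ∨ x0 + 1 = n ∨ y0 = 0 ∨ y0 + 1 = n)
    (hT : ∀ x < n, (false, x, n) ∈ S → x = x0 ∧ n = y0 + 1)
    (hB : ∀ x < n, (false, x, 0) ∈ S → x = x0 ∧ y0 = 0)
    (hL : ∀ y < n, (true, 0, y) ∈ S → y = y0 ∧ x0 = 0)
    (hR : ∀ y < n, (true, n, y) ∈ S → y = y0 ∧ n = x0 + 1) : Til n (dir n S) x0 y0 where
  hx0 := hx0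
  hy0 := hy0
  hbd := hbd
  isB := by
    intro x y hx hy h1
    have hcc := hc x y hx hy
    have hr := dir_R (n := n) hcc
    have hu := dir_U (n := n) hcc
    have hl := dir_L (n := n) hcc
    have hd := dir_D (n := n) hcc
    rw [h1] at hr hu hl hd
    simp only [reduceCtorEq, false_iff, not_and, not_lt, not_le] at hr hu hl hd
    rcases cell hcc with ⟨h1, _⟩ | ⟨_, h1, _⟩ | ⟨_, _, h1, _⟩ | ⟨_, _, _, h1⟩
    · have := hr h1
      have e : x + 1 = n := by omega
      rw [e] at h1
      have := hR y hy h1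
      omega
    · have := hu h1
      have e : y + 1 = n := by omega
      rw [e] at h1
      have := hT x hx h1
      omega
    · have := hl h1
      have e : x = 0 := by omega
      rw [e] at h1
      have := hL y hy h1
      omega
    · have := hd h1
      have e : y = 0 := by omega
      rw [e] at h1
      have := hB x hx h1
      omega
  isR := by
    intro x y hx hy h1
    rw [dir_R (hc x y hx hy)] at h1
    refine ⟨h1.2, ?_⟩
    rw [dir_L (hc _ _ h1.2 hy)]
    exact ⟨h1.1, by omega⟩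
  isL := by
    intro x y hx hy h1
    rw [dir_L (hc x y hx hy)] at h1
    refine ⟨x - 1, by omega, ?_⟩
    rw [dir_R (hc _ _ (by omega) hy)]
    rw [show x - 1 + 1 = x by omega]
    exact ⟨h1.1, hx⟩
  isU := by
    intro x y hx hy h1
    rw [dir_U (hc x y hx hy)] at h1
    refine ⟨h1.2, ?_⟩
    rw [dir_D (hc _ _ hx h1.2)]
    exact ⟨h1.1, by omega⟩
  isD := by
    intro x y hx hy h1
    rw [dir_D (hc x y hx hy)] at h1
    refine ⟨y - 1, by omega, ?_⟩
    rw [dir_U (hc _ _ hx (by omega))]
    rw [show y - 1 + 1 = y by omega]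
    exact ⟨h1.1, hy⟩
  noH := by
    intro x y hx hy h1 h2
    rw [dir_R (hc _ _ (by omega) (by omega))] at h1 h2
    have c00 := cell (hc x y (by omega) (by omega))
    have c01 := cell (hc x (y + 1) (by omega) (by omega))
    have c10 := cell (hc (x + 1) y (by omega) (by omega))
    have c11 := cell (hc (x + 1) (y + 1) (by omega) (by omega))
    simp only [h1.1, h2.1, not_true, true_and, false_and, and_false, or_false, false_or,
      and_true, Nat.add_assoc, Nat.reduceAdd] at c00 c01 c10 c11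
    obtain ⟨s, hs, i, hi, h3⟩ := hS 2 x y (by omega) (by omega) (by omega)
    obtain rfl | rfl : i = 0 ∨ i = 1 := by omega
    · rcases h3 with rfl | rfl | rfl | rfl <;> simp only [Nat.add_zero] at hs <;> tauto
    · rcases h3 with rfl | rfl | rfl | rfl <;> tauto
  noV := by
    intro x y hx hy h1 h2
    rw [dir_U (hc _ _ (by omega) (by omega))] at h1 h2
    have c00 := cell (hc x y (by omega) (by omega))
    have c01 := cell (hc x (y + 1) (by omega) (by omega))
    have c10 := cell (hc (x + 1) y (by omega) (by omega))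
    have c11 := cell (hc (x + 1) (y + 1) (by omega) (by omega))
    simp only [h1.1, h2.1, not_true, true_and, false_and, and_false, or_false, false_or,
      and_true, Nat.add_assoc, Nat.reduceAdd] at c00 c01 c10 c11
    obtain ⟨s, hs, i, hi, h3⟩ := hS 2 x y (by omega) (by omega) (by omega)
    obtain rfl | rfl : i = 0 ∨ i = 1 := by omega
    · rcases h3 with rfl | rfl | rfl | rfl <;> simp only [Nat.add_zero] at hs <;> tauto
    · rcases h3 with rfl | rfl | rfl | rfl <;> tauto

lemma sum_bsum_pos {n : ℕ} {S : Finset Seg} (hn : 1 ≤ n) (h : DestroysAll n S) :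
    1 ≤ ∑ i ∈ range n, bsum S n i := by
  obtain ⟨i, hi, h1⟩ := bsum_pos hn h
  exact h1.trans (Finset.single_le_sum (f := fun i => bsum S n i) (fun _ _ => Nat.zero_le _)
    (Finset.mem_range.2 hi))

lemma sum_cnt_ge {n : ℕ} {S : Finset Seg} (h : DestroysAll n S) :
    n ^ 2 ≤ ∑ x ∈ range n, ∑ y ∈ range n, cnt S x y := by
  rw [← sum_one n]
  exact Finset.sum_le_sum fun x hx => Finset.sum_le_sum fun y hy =>
    cnt_pos h (Finset.mem_range.1 hx) (Finset.mem_range.1 hy)

lemma not_tight {n : ℕ} (hn : 2 ≤ n) {S : Finset Seg} (h : DestroysAll n S)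
    (h1 : ∑ x ∈ range n, ∑ y ∈ range n, cnt S x y = n ^ 2)
    (h2 : ∑ i ∈ range n, bsum S n i = 1) : False := by
  have hc : ∀ x y, x < n → y < n → cnt S x y = 1 := by
    rw [← sum_one n, ← Finset.sum_product', ← Finset.sum_product'] at h1
    have h3 := (Finset.sum_eq_sum_iff_of_le (s := range n ×ˢ range n) (f := fun _ => 1)
      (g := fun p : ℕ × ℕ => cnt S p.1 p.2) (fun p hp => by
        rw [Finset.mem_product, Finset.mem_range, Finset.mem_range] at hp
        exact cnt_pos h hp.1 hp.2)).1 h1.symm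
    intro x y hx hy
    exact (h3 (x, y) (by simp [hx, hy])).symm
  obtain ⟨i, hi, h3⟩ := bsum_pos (by omega) h
  have h4 : ∀ j < n, j ≠ i → bsum S n j = 0 := by
    intro j hj hji
    have h5 := Finset.add_sum_erase (range n) (fun i => bsum S n i) (Finset.mem_range.2 hi)
    have h6 : bsum S n j ≤ ∑ x ∈ (range n).erase i, bsum S n x :=
      Finset.single_le_sum (f := fun i => bsum S n i) (fun _ _ => Nat.zero_le _)
        (Finset.mem_erase.2 ⟨hji, Finset.mem_range.2 hj⟩)
    omega
  have h5 : bsum S n i = 1 := by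
    have h6 := Finset.single_le_sum (f := fun i => bsum S n i) (s := range n)
      (fun _ _ => Nat.zero_le _) (Finset.mem_range.2 hi)
    omega
  -- the position of the removed border segment
  have key : ∀ j < n, (hf S j 0 = 0 ∧ hf S j n = 0 ∧ vf S 0 j = 0 ∧ vf S n j = 0) ∨ j = i := by
    intro j hj
    by_cases hji : j = i
    · right; exact hji
    · left
      have := h4 j hj hji
      unfold bsum at this
      omega
  unfold bsum at h5
  have kB : ∀ x < n, (false, x, 0) ∈ S → x = i ∧ hf S i 0 = 1 := by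
    intro x hx hm
    have e := hf_pos.2 hm
    rcases key x hx with ⟨k1, k2, k3, k4⟩ | rfl
    · omega
    · exact ⟨rfl, e⟩
  have kT : ∀ x < n, (false, x, n) ∈ S → x = i ∧ hf S i n = 1 := by
    intro x hx hm
    have e := hf_pos.2 hm
    rcases key x hx with ⟨k1, k2, k3, k4⟩ | rfl
    · omega
    · exact ⟨rfl, e⟩
  have kL : ∀ y < n, (true, 0, y) ∈ S → y = i ∧ vf S 0 i = 1 := by
    intro x hx hm
    have e := vf_pos.2 hm
    rcases key x hx with ⟨k1, k2, k3, k4⟩ | rfl
    · omega
    · exact ⟨rfl, e⟩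
  have kR : ∀ y < n, (true, n, y) ∈ S → y = i ∧ vf S n i = 1 := by
    intro x hx hm
    have e := vf_pos.2 hm
    rcases key x hx with ⟨k1, k2, k3, k4⟩ | rfl
    · omega
    · exact ⟨rfl, e⟩
  have l1 := hf_le S i 0
  have l2 := hf_le S i n
  have l3 := vf_le S 0 i
  have l4 := vf_le S n i
  have cases4 : hf S i 0 = 1 ∨ hf S i n = 1 ∨ vf S 0 i = 1 ∨ vf S n i = 1 := by omega
  rcases cases4 with c | c | c | c
  · refine (til_of (x0 := i) (y0 := 0) h hc hi (by omega) (by omega) ?_ ?_ ?_ ?_).false hn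
    · intro x hx hm; have := kT x hx hm; omega
    · intro x hx hm; have := kB x hx hm; omega
    · intro x hx hm; have := kL x hx hm; omega
    · intro x hx hm; have := kR x hx hm; omega
  · refine (til_of (x0 := i) (y0 := n - 1) h hc hi (by omega) (by omega) ?_ ?_ ?_ ?_).false hn
    · intro x hx hm; have := kT x hx hm; omega
    · intro x hx hm; have := kB x hx hm; omega
    · intro x hx hm; have := kL x hx hm; omega
    · intro x hx hm; have := kR x hx hm; omega
  · refine (til_of (x0 := 0) (y0 := i) h hc (by omega) hi (by omega) ?_ ?_ ?_ ?_).false hn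
    · intro x hx hm; have := kT x hx hm; omega
    · intro x hx hm; have := kB x hx hm; omega
    · intro x hx hm; have := kL x hx hm; omega
    · intro x hx hm; have := kR x hx hm; omega
  · refine (til_of (x0 := n - 1) (y0 := i) h hc (by omega) hi (by omega) ?_ ?_ ?_ ?_).false hn
    · intro x hx hm; have := kT x hx hm; omega
    · intro x hx hm; have := kB x hx hm; omega
    · intro x hx hm; have := kL x hx hm; omega
    · intro x hx hm; have := kR x hx hm; omega

/-- The lower bound. -/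
theorem lower {n : ℕ} (hn : 1 ≤ n) {S : Finset Seg} (hS : S ⊆ edges n) (h : DestroysAll n S) :
    (if n = 1 then 1 else (n ^ 2 + 3) / 2) ≤ S.card := by
  have h1 := double_count n S hS
  have h2 := sum_cnt_ge h
  have h3 := sum_bsum_pos hn h
  split_ifs with h4
  · subst h4; omega
  · by_cases h5 : ∑ x ∈ range n, ∑ y ∈ range n, cnt S x y = n ^ 2 ∧
      ∑ i ∈ range n, bsum S n i = 1
    · exact (not_tight (by omega) h h5.1 h5.2).elim
    · omega

/-! ### The construction -/

/-- the horizontal segments of `optimal` -/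
def PH (q x y : ℕ) : Prop :=
  ((x + y) % 2 = 1 ∧ x + 1 ≤ y ∧ x + y + 1 ≤ q) ∨ ((x + y) % 2 = 0 ∧ y ≤ x ∧ q ≤ x + y + 2)

/-- the vertical segments of `optimal` -/
def PV (q x y : ℕ) : Prop :=
  ((x + y) % 2 = 1 ∧ q + 1 ≤ x + y ∧ x + 1 ≤ y) ∨ ((x + y) % 2 = 0 ∧ y + 2 ≤ x ∧ x + y + 4 ≤ q)

lemma mem_opt_h (n x y : ℕ) :
    (false, x, y) ∈ optimal n ↔ (x < n ∧ y ≤ n) ∧ PH (2 * (n / 2)) x y := by
  rw [optimal, Finset.mem_filter, mem_edges_h]
  simp [PH]

lemma mem_opt_v (n x y : ℕ) :
    (true, x, y) ∈ optimal n ↔ (x ≤ n ∧ y < n) ∧ PV (2 * (n / 2)) x y := by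
  rw [optimal, Finset.mem_filter, mem_edges_v]
  simp [PV]

lemma PH1 {q x y : ℕ} (h1 : (x + y) % 2 = 1) (h2 : x + 1 ≤ y) (h3 : x + y + 1 ≤ q) : PH q x y :=
  Or.inl ⟨h1, h2, h3⟩
lemma PH2 {q x y : ℕ} (h1 : (x + y) % 2 = 0) (h2 : y ≤ x) (h3 : q ≤ x + y + 2) : PH q x y :=
  Or.inr ⟨h1, h2, h3⟩
lemma PV1 {q x y : ℕ} (h1 : (x + y) % 2 = 1) (h2 : q + 1 ≤ x + y) (h3 : x + 1 ≤ y) : PV q x y :=
  Or.inl ⟨h1, h2, h3⟩
lemma PV2 {q x y : ℕ} (h1 : (x + y) % 2 = 0) (h2 : y + 2 ≤ x) (h3 : x + y + 4 ≤ q) : PV q x y :=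
  Or.inr ⟨h1, h2, h3⟩

/-- the square `[a, a + k] × [b, b + k]` is destroyed by `optimal` -/
def Hit (q k a b : ℕ) : Prop :=
  ∃ i < k, PH q (a + i) b ∨ PH q (a + i) (b + k) ∨ PV q a (b + i) ∨ PV q (a + k) (b + i)

lemma hitB {q k a b : ℕ} (i : ℕ) (hi : i < k) (h : PH q (a + i) b) : Hit q k a b :=
  ⟨i, hi, Or.inl h⟩
lemma hitT {q k a b : ℕ} (i : ℕ) (hi : i < k) (h : PH q (a + i) (b + k)) : Hit q k a b :=
  ⟨i, hi, Or.inr (Or.inl h)⟩
lemma hitL {q k a b : ℕ} (i : ℕ) (hi : i < k) (h : PV q a (b + i)) : Hit q k a b :=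
  ⟨i, hi, Or.inr (Or.inr (Or.inl h))⟩
lemma hitR {q k a b : ℕ} (i : ℕ) (hi : i < k) (h : PV q (a + k) (b + i)) : Hit q k a b :=
  ⟨i, hi, Or.inr (Or.inr (Or.inr h))⟩

lemma find1 (q a b : ℕ) (hq : q % 2 = 0) : Hit q 1 a b := by
  by_cases h1 : (a + b) % 2 = 1
  · by_cases h2 : a + 1 ≤ b
    · by_cases h3 : a + b + 1 ≤ q
      · exact hitB 0 (by omega) (PH1 (by omega) (by omega) (by omega))
      · exact hitL 0 (by omega) (PV1 (by omega) (by omega) (by omega))
    · by_cases h3 : q ≤ a + b + 3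
      · exact hitT 0 (by omega) (PH2 (by omega) (by omega) (by omega))
      · exact hitR 0 (by omega) (PV2 (by omega) (by omega) (by omega))
  · by_cases h2 : b ≤ a
    · by_cases h3 : q ≤ a + b + 2
      · exact hitB 0 (by omega) (PH2 (by omega) (by omega) (by omega))
      · by_cases h4 : b + 2 ≤ a
        · exact hitL 0 (by omega) (PV2 (by omega) (by omega) (by omega))
        · exact hitT 0 (by omega) (PH1 (by omega) (by omega) (by omega))
    · by_cases h3 : a + b + 2 ≤ q
      · exact hitT 0 (by omega) (PH1 (by omega) (by omega) (by omega))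
      · exact hitR 0 (by omega) (PV1 (by omega) (by omega) (by omega))

lemma find2 (q a b : ℕ) (hq : q % 2 = 0) : (a = b + 1 ∨ b = a + 1 ∨ a = b + 2 ∨ b = a + 2) →
    Hit q 2 a b := by
  rintro (h | h | h | h)
  · by_cases h1 : a + b + 3 ≤ q
    · exact hitT 0 (by omega) (PH1 (by omega) (by omega) (by omega))
    · exact hitT 1 (by omega) (PH2 (by omega) (by omega) (by omega))
  · by_cases h1 : a + b + 1 ≤ q
    · exact hitB 0 (by omega) (PH1 (by omega) (by omega) (by omega))
    · exact hitB 1 (by omega) (PH2 (by omega) (by omega) (by omega))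
  · by_cases h1 : a + b + 4 ≤ q
    · exact hitL 0 (by omega) (PV2 (by omega) (by omega) (by omega))
    · exact hitT 0 (by omega) (PH2 (by omega) (by omega) (by omega))
  · by_cases h1 : a + b + 2 ≤ q
    · exact hitB 1 (by omega) (PH1 (by omega) (by omega) (by omega))
    · exact hitR 1 (by omega) (PV1 (by omega) (by omega) (by omega))

lemma find3 (q a b : ℕ) (hq : q % 2 = 0) : (a = b + 2 ∨ b = a + 2) → Hit q 3 a b := by
  rintro (h | h)
  · by_cases h1 : a + b + 4 ≤ q
    · exact hitL 0 (by omega) (PV2 (by omega) (by omega) (by omega))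
    · exact hitT 1 (by omega) (PH2 (by omega) (by omega) (by omega))
  · by_cases h1 : a + b + 2 ≤ q
    · exact hitB 1 (by omega) (PH1 (by omega) (by omega) (by omega))
    · exact hitB 2 (by omega) (PH2 (by omega) (by omega) (by omega))

lemma find (q k a b : ℕ) (hq : q % 2 = 0) (hk : 1 ≤ k) : Hit q k a b := by
  by_cases h1 : a + 2 ≤ b + k ∧ b + 2 ≤ a + k ∧ 2 ≤ k
  · obtain ⟨h1, h2, h3⟩ := h1
    by_cases h4 : a + b + k + 2 ≤ q
    · by_cases h5 : (a + b + k) % 2 = 1
      · exact hitT 0 (by omega) (PH1 (by omega) (by omega) (by omega))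
      · exact hitT 1 (by omega) (PH1 (by omega) (by omega) (by omega))
    · by_cases h5 : (a + b + k) % 2 = 1
      · exact hitB (k - 1) (by omega) (PH2 (by omega) (by omega) (by omega))
      · exact hitB (k - 2) (by omega) (PH2 (by omega) (by omega) (by omega))
  · by_cases h2 : k = 1
    · subst h2
      exact find1 q a b hq
    · by_cases h3 : b + 3 ≤ a
      · by_cases h4 : q ≤ a + b + 2 * k
        · by_cases h5 : (a + b) % 2 = 0
          · exact hitT (k - 2) (by omega) (PH2 (by omega) (by omega) (by omega))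
          · exact hitT (k - 1) (by omega) (PH2 (by omega) (by omega) (by omega))
        · by_cases h5 : (a + b) % 2 = 0
          · exact hitL 0 (by omega) (PV2 (by omega) (by omega) (by omega))
          · exact hitL 1 (by omega) (PV2 (by omega) (by omega) (by omega))
      · by_cases h4 : a + 3 ≤ b
        · by_cases h5 : a + b + 2 ≤ q
          · by_cases h6 : (a + b) % 2 = 1
            · exact hitB 0 (by omega) (PH1 (by omega) (by omega) (by omega))
            · exact hitB 1 (by omega) (PH1 (by omega) (by omega) (by omega))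
          · by_cases h6 : (a + b) % 2 = 1
            · exact hitR (k - 2) (by omega) (PV1 (by omega) (by omega) (by omega))
            · exact hitR (k - 1) (by omega) (PV1 (by omega) (by omega) (by omega))
        · obtain rfl | rfl : k = 2 ∨ k = 3 := by omega
          · exact find2 q a b hq (by omega)
          · exact find3 q a b hq (by omega)

theorem optimal_destroys (n : ℕ) : DestroysAll n (optimal n) := by
  intro k a b hk ha hb
  obtain ⟨i, hi, h⟩ := find (2 * (n / 2)) k a b (by omega) hk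
  rcases h with h | h | h | h
  · exact ⟨(false, a + i, b), (mem_opt_h _ _ _).2 ⟨by omega, h⟩, i, hi, Or.inl rfl⟩
  · exact ⟨(false, a + i, b + k), (mem_opt_h _ _ _).2 ⟨by omega, h⟩, i, hi, Or.inr (Or.inl rfl)⟩
  · exact ⟨(true, a, b + i), (mem_opt_v _ _ _).2 ⟨by omega, h⟩, i, hi,
      Or.inr (Or.inr (Or.inl rfl))⟩
  · exact ⟨(true, a + k, b + i), (mem_opt_v _ _ _).2 ⟨by omega, h⟩, i, hi,
      Or.inr (Or.inr (Or.inr rfl))⟩

lemma hf_opt {n x y : ℕ} (h : hf (optimal n) x y ≠ 0) : (x < n ∧ y ≤ n) ∧ PH (2 * (n / 2)) x y := by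
  rw [← mem_opt_h]
  unfold hf at h
  by_contra h1
  simp [h1] at h

lemma vf_opt {n x y : ℕ} (h : vf (optimal n) x y ≠ 0) : (x ≤ n ∧ y < n) ∧ PV (2 * (n / 2)) x y := by
  rw [← mem_opt_v]
  unfold vf at h
  by_contra h1
  simp [h1] at h

lemma cnt_opt_le {n x y : ℕ} (hx : x < n) (hy : y < n) :
    cnt (optimal n) x y ≤ 1 + (if x + 1 = n / 2 ∧ y + 1 = n / 2 then 1 else 0) := by
  have l1 := hf_le (optimal n) x y
  have l2 := hf_le (optimal n) x (y + 1)
  have l3 := vf_le (optimal n) x y
  have l4 := vf_le (optimal n) (x + 1) y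
  have e12 : hf (optimal n) x y ≠ 0 → hf (optimal n) x (y + 1) ≠ 0 →
      x + 1 = n / 2 ∧ y + 1 = n / 2 := by
    intro h1 h2
    have h1 := (hf_opt h1).2
    have h2 := (hf_opt h2).2
    unfold PH at h1 h2
    omega
  have e13 : hf (optimal n) x y ≠ 0 → vf (optimal n) x y ≠ 0 → False := by
    intro h1 h2
    have h1 := (hf_opt h1).2
    have h2 := (vf_opt h2).2
    unfold PH at h1
    unfold PV at h2
    omega
  have e14 : hf (optimal n) x y ≠ 0 → vf (optimal n) (x + 1) y ≠ 0 → False := by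
    intro h1 h2
    have h1 := (hf_opt h1).2
    have h2 := (vf_opt h2).2
    unfold PH at h1
    unfold PV at h2
    omega
  have e23 : hf (optimal n) x (y + 1) ≠ 0 → vf (optimal n) x y ≠ 0 → False := by
    intro h1 h2
    have h1 := (hf_opt h1).2
    have h2 := (vf_opt h2).2
    unfold PH at h1
    unfold PV at h2
    omega
  have e24 : hf (optimal n) x (y + 1) ≠ 0 → vf (optimal n) (x + 1) y ≠ 0 → False := by
    intro h1 h2
    have h1 := (hf_opt h1).2
    have h2 := (vf_opt h2).2
    unfold PH at h1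
    unfold PV at h2
    omega
  have e34 : vf (optimal n) x y ≠ 0 → vf (optimal n) (x + 1) y ≠ 0 → False := by
    intro h1 h2
    have h1 := (vf_opt h1).2
    have h2 := (vf_opt h2).2
    unfold PV at h1 h2
    omega
  unfold cnt
  split_ifs with h
  · clear e12
    by_cases z1 : hf (optimal n) x y = 0 <;> by_cases z2 : hf (optimal n) x (y + 1) = 0 <;>
      by_cases z3 : vf (optimal n) x y = 0 <;> by_cases z4 : vf (optimal n) (x + 1) y = 0 <;>
      simp only [z1, z2, z3, z4, ne_eq, not_false_eq_true, not_true_eq_false, true_imp_iff,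
        false_imp_iff] at e13 e14 e23 e24 e34 <;> omega
  · by_cases z1 : hf (optimal n) x y = 0 <;> by_cases z2 : hf (optimal n) x (y + 1) = 0 <;>
      by_cases z3 : vf (optimal n) x y = 0 <;> by_cases z4 : vf (optimal n) (x + 1) y = 0 <;>
      simp only [z1, z2, z3, z4, ne_eq, not_false_eq_true, not_true_eq_false, true_imp_iff,
        false_imp_iff] at e12 e13 e14 e23 e24 e34 <;> omega

lemma bsum_opt_le {n i : ℕ} (hi : i < n) :
    bsum (optimal n) n i ≤ (if i + 3 - n % 2 = n + 1 then 1 else 0) +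
      (if i + 3 = n then n % 2 else 0) := by
  have l1 := hf_le (optimal n) i 0
  have l2 : hf (optimal n) i n = 0 := by
    by_contra h
    have := (hf_opt h).2
    unfold PH at this
    omega
  have l3 : vf (optimal n) 0 i = 0 := by
    by_contra h
    have := (vf_opt h).2
    unfold PV at this
    omega
  have l4 : vf (optimal n) n i = 0 := by
    by_contra h
    have := (vf_opt h).2
    unfold PV at this
    omega
  unfold bsum
  rw [l2, l3, l4]
  by_cases h : hf (optimal n) i 0 = 0
  · omega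
  · have := (hf_opt h).2
    unfold PH at this
    split_ifs <;> omega

theorem optimal_card_le {n : ℕ} (hn : 1 ≤ n) :
    (optimal n).card ≤ if n = 1 then 1 else (n ^ 2 + 3) / 2 := by
  have h1 := double_count n (optimal n) (Finset.filter_subset _ _)
  have h2 : ∑ x ∈ range n, ∑ y ∈ range n, cnt (optimal n) x y ≤ n ^ 2 + if n = 1 then 0 else 1 := by
    calc ∑ x ∈ range n, ∑ y ∈ range n, cnt (optimal n) x y
        ≤ ∑ x ∈ range n, ∑ y ∈ range n, (1 + if x + 1 = n / 2 ∧ y + 1 = n / 2 then 1 else 0) :=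
          Finset.sum_le_sum fun x hx => Finset.sum_le_sum fun y hy =>
            cnt_opt_le (Finset.mem_range.1 hx) (Finset.mem_range.1 hy)
      _ ≤ n ^ 2 + if n = 1 then 0 else 1 := by
        simp only [Finset.sum_add_distrib]
        rw [sum_one]
        refine Nat.add_le_add_left ?_ _
        split_ifs with h3
        · subst h3; simp
        · rw [← Finset.sum_product' (f := fun x y => if x + 1 = n / 2 ∧ y + 1 = n / 2 then 1 else 0)]
          rw [← Finset.card_filter]
          refine Finset.card_le_one.2 ?_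
          intro p hp r hr
          rw [Finset.mem_filter] at hp hr
          ext <;> omega
  have h3 : ∑ i ∈ range n, bsum (optimal n) n i ≤ 1 + if n = 1 then 0 else n % 2 := by
    calc ∑ i ∈ range n, bsum (optimal n) n i
        ≤ ∑ i ∈ range n, ((if i + 3 - n % 2 = n + 1 then 1 else 0) +
            (if i + 3 = n then n % 2 else 0)) :=
          Finset.sum_le_sum fun i hi => bsum_opt_le (Finset.mem_range.1 hi)
      _ ≤ 1 + if n = 1 then 0 else n % 2 := by
        rw [Finset.sum_add_distrib]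
        refine Nat.add_le_add ?_ ?_
        · rw [← Finset.card_filter]
          refine Finset.card_le_one.2 ?_
          intro p hp r hr
          rw [Finset.mem_filter, Finset.mem_range] at hp hr
          omega
        · split_ifs with h3
          · subst h3; simp
          · by_cases h4 : 3 ≤ n
            · rw [Finset.sum_eq_single (n - 3)]
              · split_ifs <;> omega
              · intro j _ hj
                rw [if_neg (by omega)]
              · intro hj
                rw [Finset.mem_range] at hj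
                omega
            · rw [Finset.sum_eq_zero]
              · omega
              · intro j _
                rw [if_neg (by omega)]
  split_ifs at h2 h3 ⊢ with h4
  · subst h4; omega
  · omega

/-- The value of `f n` for every `n ≥ 1`, and an explicit optimal set for every `n ≥ 1`. -/
theorem result (n : ℕ) (hn : 1 ≤ n) :
    f n = (if n = 1 then 1 else (n ^ 2 + 3) / 2) ∧
    optimal n ⊆ edges n ∧ DestroysAll n (optimal n) ∧ (optimal n).card = f n := by
  have hsub : optimal n ⊆ edges n := Finset.filter_subset _ _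
  have hle := optimal_card_le hn
  have hge := lower hn hsub (optimal_destroys n)
  have hcard : (optimal n).card = if n = 1 then 1 else (n ^ 2 + 3) / 2 := le_antisymm hle hge
  have hf : f n = (if n = 1 then 1 else (n ^ 2 + 3) / 2) := by
    apply le_antisymm
    · exact Nat.sInf_le ⟨optimal n, hsub, optimal_destroys n, hcard⟩
    · refine le_csInf ⟨_, optimal n, hsub, optimal_destroys n, rfl⟩ ?_
      rintro m ⟨S, hS1, hS2, rfl⟩
      exact lower hn hS1 hS2
  exact ⟨hf, hsub, optimal_destroys n, hcard.trans hf.symm⟩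

end Pool.Agent.Results.MP_5493ad_co.MinSegments
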